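import Pool.Agent.Helper15.GS.GoalsE

/-! GS: pointwise linear algebra `S_GAL`. -/

open Complex Metric Set Filter Topology MeasureTheory
open scoped ContDiff ComplexConjugate ComplexOrder Manifold Matrix MatrixOrder

namespace Pool.Agent.Helper68.GS

open Pool.Agent.Helper95.Lin Pool.Agent.Helper16.Abund Pool.Agent.Helper92.Orb
  Pool.Agent.Helper10.SP Pool.Agent.Helper95.RK Pool.Agent.Helper57.HS
  Pool.Agent.Helper15.HS Pool.Agent.Helper15.GS

/-- the value of a Hermitian form in terms of matrices -/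
theorem hermi_eq {n : ℕ} (A : Matrix (Fin n) (Fin n) ℂ) (u v : Cn n) :
    hermi A u v = (u ᵥ* A) ⬝ᵥ star v := by
  unfold hermi
  simp only [dotProduct, Matrix.vecMul, Pi.star_apply, RCLike.star_def, Finset.sum_mul]
  rw [Finset.sum_comm]
  refine Finset.sum_congr rfl fun j _ => Finset.sum_congr rfl fun i _ => ?_
  ring

/-- GAL -/
theorem gal : S_GAL := by
  intro n k h Q P hh hQ hPP hPh htr
  have hhu : IsUnit h.det := hh.det_pos.ne'.isUnit
  have hQu : IsUnit Q.det := hQ.det_pos.ne'.isUnit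
  have hhH : hᴴ = h := hh.isHermitian
  have hQH : Qᴴ = Q := hQ.isHermitian
  have hQi : (Q⁻¹)ᴴ = Q⁻¹ := hQ.inv.isHermitian
  have hhi : (h⁻¹)ᴴ = h⁻¹ := hh.inv.isHermitian
  -- `β = P h`
  set β : Matrix (Fin n) (Fin n) ℂ := P * h with hβ
  have hβH : βᴴ = β := by rw [hβ, Matrix.conjTranspose_mul, hhH, ← hPh]
  have hPβ : P * β = β := by rw [hβ, ← Matrix.mul_assoc, hPP]
  have hβP : β * Pᴴ = β := by
    have := congrArg Matrix.conjTranspose hPβ
    rwa [Matrix.conjTranspose_mul, hβH] at this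
  have hPeq : P = β * h⁻¹ := by
    rw [hβ, Matrix.mul_assoc, Matrix.mul_nonsing_inv _ hhu, Matrix.mul_one]
  -- a factor of `β`
  obtain ⟨S, hS⟩ : ∃ S : Matrix (Fin n) (Fin n) ℂ, β = S * Sᴴ := by
    obtain ⟨L, hL⟩ := CStarAlgebra.nonneg_iff_eq_star_mul_self.mp hh.posSemidef.nonneg
    rw [Matrix.star_eq_conjTranspose] at hL
    refine ⟨P * Lᴴ, ?_⟩
    rw [Matrix.conjTranspose_mul, Matrix.conjTranspose_conjTranspose]
    calc β = β * Pᴴ := hβP.symm
      _ = P * h * Pᴴ := by rw [hβ]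
      _ = P * (Lᴴ * L) * Pᴴ := by rw [← hL]
      _ = P * Lᴴ * (L * Pᴴ) := by simp only [Matrix.mul_assoc]
  set M : Matrix (Fin n) (Fin n) ℂ := Q⁻¹ - h⁻¹ with hM
  have hMH : Mᴴ = M := by rw [hM, Matrix.conjTranspose_sub, hQi, hhi]
  set K : Matrix (Fin n) (Fin n) ℂ := Sᴴ * M * S with hK
  have hKH : Kᴴ = K := by
    rw [hK, Matrix.conjTranspose_mul, Matrix.conjTranspose_mul, Matrix.conjTranspose_conjTranspose,
      hMH, Matrix.mul_assoc]
  -- the expression is the trace of `K Kᴴ`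
  have hN : β * M = β * Q⁻¹ - P := by
    rw [hM, Matrix.mul_sub, ← hPeq]
  have htrK : Matrix.trace (K * Kᴴ) = Matrix.trace ((β * M) * (β * M)) := by
    rw [hKH, hK, hS]
    have e1 : Sᴴ * M * S * (Sᴴ * M * S) = Sᴴ * (M * S * Sᴴ * M * S) := by
      simp only [Matrix.mul_assoc]
    rw [e1, Matrix.trace_mul_comm]
    have e2 : M * S * Sᴴ * M * S * Sᴴ = (M * (S * Sᴴ)) * (M * (S * Sᴴ)) := by
      simp only [Matrix.mul_assoc]
    rw [e2]
    have e3 : M * (S * Sᴴ) * (M * (S * Sᴴ)) = M * ((S * Sᴴ) * (M * (S * Sᴴ))) := by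
      simp only [Matrix.mul_assoc]
    rw [e3, Matrix.trace_mul_comm]
    simp only [Matrix.mul_assoc]
  have htr2 : Matrix.trace ((β * M) * (β * M)) =
      Matrix.trace (β * Q⁻¹ * β * Q⁻¹) - 2 * Matrix.trace (β * Q⁻¹) + k := by
    rw [hN, Matrix.sub_mul, Matrix.mul_sub, Matrix.mul_sub]
    have e1 : Matrix.trace (β * Q⁻¹ * P) = Matrix.trace (β * Q⁻¹) := by
      rw [Matrix.trace_mul_comm, ← Matrix.mul_assoc, hPβ]
    have e2 : Matrix.trace (P * (β * Q⁻¹)) = Matrix.trace (β * Q⁻¹) := by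
      rw [← Matrix.mul_assoc, hPβ]
    rw [Matrix.trace_sub, Matrix.trace_sub, Matrix.trace_sub, e1, e2, hPP, htr]
    have e3 : β * Q⁻¹ * (β * Q⁻¹) = β * Q⁻¹ * β * Q⁻¹ := by simp only [Matrix.mul_assoc]
    rw [e3]
    ring
  have hpos : 0 ≤ Matrix.trace (K * Kᴴ) :=
    (Matrix.posSemidef_self_mul_conjTranspose K).trace_nonneg
  have hexp : (Matrix.trace (K * Kᴴ)).re = (Matrix.trace (β * Q⁻¹ * β * Q⁻¹)).re -
      2 * (Matrix.trace (β * Q⁻¹)).re + k := by
    rw [htrK, htr2]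
    simp
  refine ⟨?_, fun h0 => ?_⟩
  · rw [← hexp]
    exact (Complex.nonneg_iff.1 hpos).1
  rw [← hexp] at h0
  have hK0 : K = 0 := by
    have h1 : Matrix.trace (K * Kᴴ) = 0 := by
      refine Complex.ext h0 ?_
      exact (Complex.nonneg_iff.1 hpos).2.symm
    exact Matrix.trace_mul_conjTranspose_self_eq_zero_iff.1 h1
  -- `β Q⁻¹ β = β`
  have hβ2 : β * Q⁻¹ * β = β := by
    have h1 : β * M * β = 0 := by
      have : β * M * β = S * K * Sᴴ := by
        rw [hK, hS]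
        simp only [Matrix.mul_assoc]
      rw [this, hK0, Matrix.mul_zero, Matrix.zero_mul]
    rw [hN, Matrix.sub_mul, hPβ] at h1
    exact sub_eq_zero.1 h1
  set B : Matrix (Fin n) (Fin n) ℂ := β * Q⁻¹ with hB
  have hBB : B * B = B := by
    rw [hB, ← Matrix.mul_assoc, hβ2]
  have hBQ : B * Q = β := by
    rw [hB, Matrix.mul_assoc, Matrix.nonsing_inv_mul _ hQu, Matrix.mul_one]
  have hQB : Q * Bᴴ = β := by
    have := congrArg Matrix.conjTranspose hBQ
    rwa [Matrix.conjTranspose_mul, hβH, hQH] at this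
  have hfac : Q - β = (1 - B) * Q * (1 - B)ᴴ := by
    rw [Matrix.conjTranspose_sub, Matrix.conjTranspose_one, Matrix.sub_mul, Matrix.one_mul, hBQ,
      Matrix.mul_sub, Matrix.mul_one, Matrix.sub_mul, hQB]
    have h2 : β * Bᴴ = β := by
      have h3 : Bᴴ * Bᴴ = Bᴴ := by
        have := congrArg Matrix.conjTranspose hBB
        rwa [Matrix.conjTranspose_mul] at this
      calc β * Bᴴ = Q * Bᴴ * Bᴴ := by rw [hQB]
        _ = Q * (Bᴴ * Bᴴ) := Matrix.mul_assoc _ _ _
        _ = β := by rw [h3, hQB]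
    rw [h2]
    abel
  have hBtr : Matrix.trace B = k := by
    have h3 : Matrix.trace (K * Kᴴ) = 0 := by rw [hK0, Matrix.zero_mul, Matrix.trace_zero]
    rw [htrK, htr2, hβ2, ← hB] at h3
    linear_combination -h3
  refine ⟨?_, ?_⟩
  · rw [hfac]
    exact hQ.posSemidef.mul_mul_conjTranspose_same (1 - B)
  -- the kernel
  set f : Cn n →ₗ[ℂ] Cn n := Matrix.mulVecLin Bᵀ with hf
  have hfe : ∀ e, f e = e ᵥ* B := fun e => by
    rw [hf, Matrix.mulVecLin_apply, Matrix.mulVec_transpose]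
  have hid : IsIdempotentElem f := by
    refine LinearMap.ext fun e => ?_
    rw [Module.End.mul_apply, hfe, hfe, Matrix.vecMul_vecMul, hBB]
  have hproj := LinearMap.IsIdempotentElem.isProj_range f hid
  have hft : LinearMap.trace ℂ (Cn n) f = Matrix.trace B := by
    rw [hf, ← Matrix.toLin'_apply', Matrix.trace_toLin'_eq, Matrix.trace_transpose]
  refine ⟨LinearMap.range f, ?_, fun e => ?_⟩
  · have h4 := hproj.trace
    rw [hft, hBtr] at h4
    exact_mod_cast h4.symm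
  · have h5 : e ∈ LinearMap.range f ↔ e ᵥ* B = e := by
      constructor
      · rintro ⟨e', rfl⟩
        rw [hfe, Matrix.vecMul_vecMul, hBB]
      · intro he
        exact ⟨e, by rw [hfe, he]⟩
    rw [h5]
    have h6 : hermi (Q - β) e e = (e ᵥ* (1 - B)) ᵥ* Q ⬝ᵥ star (e ᵥ* (1 - B)) := by
      rw [hermi_eq, hfac, ← Matrix.vecMul_vecMul, ← Matrix.vecMul_vecMul, Matrix.star_vecMul,
        ← Matrix.dotProduct_mulVec]
    rw [h6]
    constructor
    · intro h7
      have h8 : e ᵥ* (1 - B) = 0 := by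
        by_contra hne
        have h9 := hQ.dotProduct_mulVec_pos (x := star (e ᵥ* (1 - B)))
          (fun h => hne (by rw [← star_star (e ᵥ* (1 - B)), h, star_zero]))
        rw [star_star, Matrix.dotProduct_mulVec, h7] at h9
        exact lt_irrefl _ h9
      rw [Matrix.vecMul_sub, Matrix.vecMul_one] at h8
      exact (sub_eq_zero.1 h8).symm
    · intro h7
      have h8 : e ᵥ* (1 - B) = 0 := by
        rw [Matrix.vecMul_sub, Matrix.vecMul_one, h7, sub_self]
      rw [h8, Matrix.zero_vecMul, zero_dotProduct]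

end Pool.Agent.Helper68.GS
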